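import Pool.Agent.Q175.HH.Str

/-! Nonexistence of distributional solutions of `(-Δ)^m u = |x|^σ u^p` by logarithmic cutoffs. -/

set_option autoImplicit false

open MeasureTheory InnerProductSpace Filter Topology Set Laplacian
open scoped ContDiff

namespace Pool.Agent.Q175.HH

open Pool.Agent.Q175.PH (LL LL_succ LL_congr LL_smooth LL_supp)

noncomputable def fW (n : ℕ) (L : ℝ) : ℝ → ℝ :=
  (Icc (Real.exp (-L)) (Real.exp L)).indicator fun r => (r ^ 2) ^ (-(n : ℝ) / 2)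

lemma fW_aux {n : ℕ} (hn : 1 ≤ n) (L : ℝ) {y : ℝ} (hy : y ∈ Ioi (0:ℝ)) :
    y ^ (n - 1) • fW n L y = (Icc (Real.exp (-L)) (Real.exp L)).indicator (fun r => r⁻¹) y := by
  have hy' : 0 < y := hy
  unfold fW indicator
  split_ifs with h
  · rw [smul_eq_mul]
    have h1 : (y ^ 2) ^ (-(n : ℝ) / 2) = (y ^ n)⁻¹ := by
      rw [← Real.rpow_natCast y 2, ← Real.rpow_mul hy'.le, ← Real.rpow_natCast y n, ← Real.rpow_neg hy'.le]
      congr 1
      push_cast
      ring
    change y ^ (n - 1) * (y ^ 2) ^ (-(n : ℝ) / 2) = y⁻¹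
    rw [h1]
    obtain ⟨k, rfl⟩ : ∃ k, n = k + 1 := ⟨n - 1, by omega⟩
    simp only [Nat.add_sub_cancel]
    rw [pow_succ]
    field_simp
  · simp

lemma fW_nonneg (n : ℕ) (L y : ℝ) : 0 ≤ fW n L y := by
  unfold fW indicator
  split_ifs
  · positivity
  · exact le_rfl

lemma inv_int (L : ℝ) : Integrable ((Icc (Real.exp (-L)) (Real.exp L)).indicator (fun r : ℝ => r⁻¹)) := by
  rw [integrable_indicator_iff measurableSet_Icc]
  apply ContinuousOn.integrableOn_Icc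
  apply continuousOn_id.inv₀
  intro x hx
  have := Real.exp_pos (-L)
  have h1 : Real.exp (-L) ≤ x := hx.1
  change x ≠ 0
  linarith

lemma W_int {n : ℕ} (hn : 1 ≤ n) (L : ℝ) :
    Integrable (fun x : EuclideanSpace ℝ (Fin n) => fW n L ‖x‖) := by
  have : Nonempty (Fin n) := ⟨⟨0, hn⟩⟩
  rw [integrable_fun_norm_addHaar volume (f := fW n L), finrank_euclideanSpace_fin]
  exact (inv_int L).integrableOn.congr_fun (fun y hy => (fW_aux hn L hy).symm) measurableSet_Ioi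

lemma W_val {n : ℕ} (hn : 1 ≤ n) {L : ℝ} (hL : 0 ≤ L) :
    ∫ x : EuclideanSpace ℝ (Fin n), fW n L ‖x‖ =
      n * volume.real (Metric.ball (0 : EuclideanSpace ℝ (Fin n)) 1) * (2 * L) := by
  have : Nonempty (Fin n) := ⟨⟨0, hn⟩⟩
  rw [integral_fun_norm_addHaar volume (fW n L), finrank_euclideanSpace_fin,
    setIntegral_congr_fun measurableSet_Ioi (fun y hy => fW_aux hn L hy),
    setIntegral_indicator measurableSet_Icc]
  have h1 : Ioi (0:ℝ) ∩ Icc (Real.exp (-L)) (Real.exp L) = Icc (Real.exp (-L)) (Real.exp L) := by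
    apply inter_eq_right.mpr
    intro x hx
    exact lt_of_lt_of_le (Real.exp_pos _) hx.1
  rw [h1, integral_Icc_eq_integral_Ioc, ← intervalIntegral.integral_of_le (Real.exp_le_exp.mpr (by linarith)),
    integral_inv_of_pos (Real.exp_pos _) (Real.exp_pos _), ← Real.exp_sub, Real.log_exp]
  simp only [nsmul_eq_mul, smul_eq_mul]
  ring

/-- the cutoff -/
noncomputable def bmp : ContDiffBump (0:ℝ) := ⟨1, 2, by norm_num, by norm_num⟩

noncomputable def χ (y : ℝ) : ℝ := bmp y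

lemma χ_smooth : ContDiff ℝ ∞ χ := bmp.contDiff
lemma χ_nonneg (y : ℝ) : 0 ≤ χ y := bmp.nonneg
lemma χ_le_one (y : ℝ) : χ y ≤ 1 := bmp.le_one
lemma χ_one {y : ℝ} (h : |y| ≤ 1) : χ y = 1 := bmp.one_of_mem_closedBall (by simpa [bmp] using h)
lemma χ_zero {y : ℝ} (h : 2 ≤ |y|) : χ y = 0 := bmp.zero_of_le_dist (by simpa [bmp] using h)

variable {n : ℕ}

/-- the test function -/
noncomputable def tf (b ε : ℝ) (K : ℕ) (x : EuclideanSpace ℝ (Fin n)) : ℝ :=
  open Classical in if x = 0 then 0 else (‖x‖ ^ 2) ^ b * χ (ε * Real.log (‖x‖ ^ 2)) ^ K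

lemma tf_eq (b ε : ℝ) (K : ℕ) {x : EuclideanSpace ℝ (Fin n)} (hx : x ≠ 0) :
    tf b ε K x = (‖x‖ ^ 2) ^ b * χ (ε * Real.log (‖x‖ ^ 2)) ^ K := by
  unfold tf; rw [if_neg hx]

lemma tf_nonneg (b ε : ℝ) (K : ℕ) (x : EuclideanSpace ℝ (Fin n)) : 0 ≤ tf b ε K x := by
  by_cases hx : x = 0
  · unfold tf; rw [if_pos hx]
  · rw [tf_eq b ε K hx]
    have := χ_nonneg (ε * Real.log (‖x‖ ^ 2))
    positivity

lemma tf_smooth (b : ℝ) {ε : ℝ} (hε : 0 < ε) {K : ℕ} (hK : K ≠ 0) :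
    ContDiff ℝ ∞ (tf (n := n) b ε K) := by
  rw [contDiff_iff_contDiffAt]
  intro x
  by_cases hx : x = 0
  · subst hx
    have h1 : tf (n := n) b ε K =ᶠ[𝓝 0] fun _ => 0 := by
      have ho : {x : EuclideanSpace ℝ (Fin n) | ‖x‖ ^ 2 < Real.exp (-2 / ε)} ∈ 𝓝 0 := by
        apply (isOpen_lt (by fun_prop) continuous_const).mem_nhds
        change ‖(0 : EuclideanSpace ℝ (Fin n))‖ ^ 2 < _
        simp [Real.exp_pos]
      filter_upwards [ho] with x hx
      by_cases h0 : x = 0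
      · unfold tf; rw [if_pos h0]
      · rw [tf_eq b ε K h0]
        have hs : 0 < ‖x‖ ^ 2 := by positivity
        have h2 : Real.log (‖x‖ ^ 2) < -2 / ε := by
          rw [Real.log_lt_iff_lt_exp hs]
          exact hx
        have h3 : ε * Real.log (‖x‖ ^ 2) < -2 := by
          rw [lt_div_iff₀ hε] at h2
          linarith
        rw [χ_zero (by rw [abs_of_neg (by linarith)]; linarith), zero_pow hK, mul_zero]
    exact contDiffAt_const.congr_of_eventuallyEq h1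
  · have h1 : tf b ε K =ᶠ[𝓝 x] fun x : EuclideanSpace ℝ (Fin n) =>
        (‖x‖ ^ 2) ^ b * χ (ε * Real.log (‖x‖ ^ 2)) ^ K := by
      filter_upwards [isOpen_ne.mem_nhds hx] with y hy
      exact tf_eq b ε K hy
    refine ContDiffAt.congr_of_eventuallyEq ?_ h1
    have h2 : ContDiffAt ℝ ∞ (fun x : EuclideanSpace ℝ (Fin n) => ‖x‖ ^ 2) x := (contDiff_norm_sq ℝ).contDiffAt
    have hs : ‖x‖ ^ 2 ≠ 0 := by positivity
    exact (h2.rpow_const_of_ne hs).mul ((χ_smooth.contDiffAt.comp x (contDiffAt_const.mul (h2.log hs))).pow K)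

lemma tf_supp (b : ℝ) {ε : ℝ} (hε : 0 < ε) {K : ℕ} (hK : K ≠ 0) :
    HasCompactSupport (tf (n := n) b ε K) := by
  apply HasCompactSupport.intro (isCompact_closedBall 0 (Real.exp (1 / ε)))
  intro x hx
  rw [mem_closedBall_zero_iff, not_le] at hx
  have h0 : 0 < ‖x‖ := lt_trans (Real.exp_pos _) hx
  have h1 : x ≠ 0 := by simpa using h0.ne'
  rw [tf_eq b ε K h1]
  have h2 : 1 / ε < Real.log ‖x‖ := by
    rw [Real.lt_log_iff_exp_lt h0]
    exact hx
  have h3 : 2 ≤ ε * Real.log (‖x‖ ^ 2) := by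
    rw [Real.log_pow]
    rw [div_lt_iff₀ hε] at h2
    push_cast
    linarith
  rw [χ_zero (by rw [abs_of_pos (by linarith)]; exact h3), zero_pow hK, mul_zero]

/-- pointwise Young inequality -/
lemma young {p q m σ b ε M v s t : ℝ} {N : ℕ} {l K : ℕ} (hpq : p.HolderConjugate q) (hl : l ≠ 0)
    (hlK : (K : ℝ) / p ≤ l) (hb : b * (p - 1) = p * m + σ / 2 - N / 2 * (p - 1)) (hε : 0 ≤ ε) (hM : 0 ≤ M)
    (hv : 0 ≤ v) (hs : 0 < s) (ht0 : 0 ≤ t) (ht1 : t ≤ 1) :
    v * (s ^ (b - m) * (ε * t ^ l * M)) ≤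
      (s ^ (σ / 2) * v ^ p * (s ^ b * t ^ K)) / p + (M * ε) ^ q * s ^ (-(N:ℝ) / 2) := by
  have hp0 : 0 < p := hpq.pos
  have hq0 : 0 < q := hpq.symm.pos
  have hK0 : 0 ≤ (K : ℝ) / p := by positivity
  rcases ht0.eq_or_lt with ht | ht
  · rw [← ht, zero_pow hl]
    have : 0 ≤ (s ^ (σ / 2) * v ^ p * (s ^ b * (0:ℝ) ^ K)) / p := by positivity
    have h2 : 0 ≤ (M * ε) ^ q * s ^ (-(N:ℝ) / 2) := by positivity
    simp only [mul_zero, zero_mul]
    linarith
  · have hY := Real.young_inequality_of_nonneg (a := v * s ^ ((σ / 2 + b) / p) * t ^ ((K:ℝ) / p))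
      (b := M * ε * s ^ (-(N:ℝ) / 2 / q)) (by positivity) (by positivity) hpq
    have e1 : (v * s ^ ((σ / 2 + b) / p) * t ^ ((K:ℝ) / p)) ^ p = s ^ (σ / 2) * v ^ p * (s ^ b * t ^ K) := by
      rw [Real.mul_rpow (by positivity) (by positivity), Real.mul_rpow hv (by positivity),
        ← Real.rpow_mul hs.le, ← Real.rpow_mul ht.le, div_mul_cancel₀ _ hp0.ne', div_mul_cancel₀ _ hp0.ne',
        Real.rpow_add hs, Real.rpow_natCast]
      ring
    have e2 : (M * ε * s ^ (-(N:ℝ) / 2 / q)) ^ q = (M * ε) ^ q * s ^ (-(N:ℝ) / 2) := by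
      rw [Real.mul_rpow (by positivity) (by positivity), ← Real.rpow_mul hs.le, div_mul_cancel₀ _ hq0.ne']
    rw [e1, e2] at hY
    have e3 : (M * ε) ^ q * s ^ (-(N:ℝ) / 2) / q ≤ (M * ε) ^ q * s ^ (-(N:ℝ) / 2) := by
      apply div_le_self (by positivity)
      exact hpq.symm.lt.le
    have e4 : s ^ (b - m) = s ^ ((σ / 2 + b) / p) * s ^ (-(N:ℝ) / 2 / q) := by
      rw [← Real.rpow_add hs]
      congr 1
      have hq : 1 / q = (p - 1) / p := by
        have := hpq.inv_add_inv_eq_one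
        rw [one_div]
        field_simp at this ⊢
        linarith
      have : -(N:ℝ) / 2 / q = -(N:ℝ) / 2 * ((p - 1) / p) := by rw [← hq]; ring
      rw [this]
      field_simp
      linarith
    have e5 : t ^ l ≤ t ^ ((K:ℝ) / p) := by
      rw [← Real.rpow_natCast]
      exact Real.rpow_le_rpow_of_exponent_ge ht ht1 hlK
    calc v * (s ^ (b - m) * (ε * t ^ l * M))
        ≤ v * (s ^ (b - m) * (ε * t ^ ((K:ℝ) / p) * M)) := by gcongr
      _ = v * s ^ ((σ / 2 + b) / p) * t ^ ((K:ℝ) / p) * (M * ε * s ^ (-(N:ℝ) / 2 / q)) := by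
          rw [e4]; ring
      _ ≤ _ := by linarith

open Real in
/-- Nonexistence. -/
theorem none {m : ℕ} (hn : 1 ≤ n) {p σ b : ℝ} (hp : 1 < p)
    (hb : b * (p - 1) = p * m + σ / 2 - n / 2 * (p - 1))
    (hsign : (-1) ^ m * ∏ i ∈ Finset.range m, (4 * (b - i) * (b - i - 1 + n / 2)) ≤ 0)
    {u : EuclideanSpace ℝ (Fin n) → ℝ} (hu0 : ∀ᵐ x, 0 ≤ u x) (hu : LocallyIntegrable u)
    (hf : LocallyIntegrable fun x => ‖x‖ ^ σ * u x ^ p)
    (heq : ∀ φ : EuclideanSpace ℝ (Fin n) → ℝ, ContDiff ℝ ∞ φ → HasCompactSupport φ →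
      ∫ x, u x * ((-1) ^ m * LL m φ x) = ∫ x, ‖x‖ ^ σ * u x ^ p * φ x) :
    u =ᵐ[volume] fun _ => 0 := by
  obtain ⟨q, hpq⟩ : ∃ q, p.HolderConjugate q := ⟨p.conjExponent, HolderConjugate.conjExponent hp⟩
  have hp0 : 0 < p := by linarith
  have hq1 : 1 < q := hpq.symm.lt
  obtain ⟨l, hl0, hl⟩ : ∃ l : ℕ, l ≠ 0 ∧ 2 * (m:ℝ) / (p - 1) ≤ l := by
    refine ⟨⌈2 * (m:ℝ) / (p - 1)⌉₊ + 1, by omega, ?_⟩
    push_cast
    linarith [Nat.le_ceil (2 * (m:ℝ) / (p - 1))]
  set K : ℕ := l + 2 * m with hK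
  have hK0 : K ≠ 0 := by omega
  have hlK : (K : ℝ) / p ≤ l := by
    rw [div_le_iff₀ (by linarith)] at hl
    rw [div_le_iff₀ hp0, hK]
    push_cast
    nlinarith
  obtain ⟨r, hr, hg⟩ := gg_str χ_smooth n b K m l hK
  set P : ℝ := ∏ i ∈ Finset.range m, (4 * (b - i) * (b - i - 1 + n / 2)) with hP
  obtain ⟨M, hM⟩ := (isCompact_Icc (a := (0:ℝ)) (b := 1)).prod (isCompact_Icc (a := (-2:ℝ)) (b := 2))
    |>.exists_bound_of_continuousOn hr.continuous.continuousOn
  have hM0 : 0 ≤ M := le_trans (norm_nonneg _) (hM (0, 0) ⟨⟨by norm_num, by norm_num⟩, by norm_num, by norm_num⟩)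
  have hg0 : ContDiff ℝ ∞ (fun p : ℝ × ℝ => χ p.2 ^ K) := (χ_smooth.comp contDiff_snd).pow K
  have hLL : ∀ ε : ℝ, ∀ x : EuclideanSpace ℝ (Fin n), x ≠ 0 → LL m (tf b ε K) x = (‖x‖ ^ 2) ^ (b - m) *
      (P * χ (ε * log (‖x‖ ^ 2)) ^ K + ε * χ (ε * log (‖x‖ ^ 2)) ^ l * r (ε, ε * log (‖x‖ ^ 2))) := by
    intro ε x hx
    rw [LL_form b hg0 ε (fun x hx => tf_eq b ε K hx) m x hx, hg]
  have hne0 : ∀ᵐ x : EuclideanSpace ℝ (Fin n), x ≠ 0 := by
    have : Nonempty (Fin n) := ⟨⟨0, hn⟩⟩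
    have h0 : volume ({0} : Set (EuclideanSpace ℝ (Fin n))) = 0 := measure_singleton _
    filter_upwards [compl_mem_ae_iff.mpr h0] with x hx
    exact hx
  -- pointwise inequality
  have hpt : ∀ ε : ℝ, 0 < ε → ε ≤ 1 → ∀ x : EuclideanSpace ℝ (Fin n), x ≠ 0 → 0 ≤ u x →
      u x * ((-1) ^ m * LL m (tf b ε K) x) ≤
        (‖x‖ ^ σ * u x ^ p * tf b ε K x) / p + (M * ε) ^ q * fW n (1 / ε) ‖x‖ := by
    intro ε hε hε1 x hx hux
    have hx0 : 0 < ‖x‖ := by positivity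
    have hs : 0 < ‖x‖ ^ 2 := by positivity
    rw [hLL ε x hx, tf_eq b ε K hx]
    set y := ε * log (‖x‖ ^ 2) with hy
    rcases le_or_gt 2 |y| with h2 | h2
    · rw [χ_zero h2, zero_pow hK0, zero_pow hl0]
      have := fW_nonneg n (1 / ε) ‖x‖
      have h3 : 0 ≤ (M * ε) ^ q := by positivity
      have h4 := mul_nonneg h3 this
      simp only [mul_zero, zero_mul, add_zero, zero_div, zero_add]
      exact h4
    · have hW : fW n (1 / ε) ‖x‖ = (‖x‖ ^ 2) ^ (-(n:ℝ) / 2) := by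
        unfold fW
        rw [indicator_of_mem]
        rw [abs_lt] at h2
        have h3 : log (‖x‖ ^ 2) = 2 * log ‖x‖ := by rw [log_pow]; norm_num
        have h4 : log ‖x‖ ≤ 1 / ε := by
          rw [le_div_iff₀ hε]
          rw [hy, h3] at h2
          linarith [h2.2]
        have h5 : -(1 / ε) ≤ log ‖x‖ := by
          rw [neg_le, le_div_iff₀ hε]
          rw [hy, h3] at h2
          linarith [h2.1]
        exact ⟨(le_log_iff_exp_le hx0).mp h5, (log_le_iff_le_exp hx0).mp h4⟩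
      have hsig : ‖x‖ ^ σ = (‖x‖ ^ 2) ^ (σ / 2) := by
        rw [← rpow_natCast ‖x‖ 2, ← rpow_mul hx0.le]
        congr 1
        push_cast
        ring
      rw [hW, hsig]
      refine le_trans ?_ (young (m := m) hpq hl0 hlK hb hε.le hM0 hux hs (χ_nonneg y) (χ_le_one y))
      have hrb : |r (ε, y)| ≤ M := hM (ε, y) ⟨⟨hε.le, hε1⟩, (abs_le.mp h2.le).1, (abs_le.mp h2.le).2⟩
      have hχ0 := χ_nonneg y
      have h6 : (-1:ℝ) ^ m * r (ε, y) ≤ M := by
        refine le_trans (le_abs_self _) ?_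
        rw [abs_mul, abs_pow, abs_neg, abs_one, one_pow, one_mul]
        exact hrb
      have h7 : (-1) ^ m * P * χ y ^ K ≤ 0 := mul_nonpos_of_nonpos_of_nonneg hsign (by positivity)
      have h8 : (-1) ^ m * (P * χ y ^ K + ε * χ y ^ l * r (ε, y)) ≤ ε * χ y ^ l * M := by
        have : ε * χ y ^ l * ((-1) ^ m * r (ε, y)) ≤ ε * χ y ^ l * M :=
          mul_le_mul_of_nonneg_left h6 (by positivity)
        nlinarith
      have h9 : 0 ≤ (‖x‖ ^ 2) ^ (b - m) := by positivity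
      have h10 : (-1) ^ m * ((‖x‖ ^ 2) ^ (b - m) * (P * χ y ^ K + ε * χ y ^ l * r (ε, y))) ≤
          (‖x‖ ^ 2) ^ (b - m) * (ε * χ y ^ l * M) := by
        calc _ = (‖x‖ ^ 2) ^ (b - m) * ((-1) ^ m * (P * χ y ^ K + ε * χ y ^ l * r (ε, y))) := by ring
          _ ≤ _ := mul_le_mul_of_nonneg_left h8 h9
      exact mul_le_mul_of_nonneg_left h10 hux
  -- integrability of the source times the test function
  have hXint : ∀ ε : ℝ, 0 < ε → Integrable (fun x => ‖x‖ ^ σ * u x ^ p * tf b ε K x) := by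
    intro ε hε
    have := hf.integrable_smul_left_of_hasCompactSupport (tf_smooth (n := n) b hε hK0).continuous
      (tf_supp (n := n) b hε hK0)
    refine this.congr (Eventually.of_forall fun x => ?_)
    simp only [smul_eq_mul]
    ring
  set C : ℝ := M ^ q * (n * volume.real (Metric.ball (0 : EuclideanSpace ℝ (Fin n)) 1) * 2) / (1 - 1 / p) with hC
  have hest : ∀ ε : ℝ, 0 < ε → ε ≤ 1 → ∫ x, ‖x‖ ^ σ * u x ^ p * tf b ε K x ≤ C * ε ^ (q - 1) := by
    intro ε hε hε1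
    have h1 := heq (tf b ε K) (tf_smooth b hε hK0) (tf_supp b hε hK0)
    have hI1 : Integrable (fun x => u x * ((-1) ^ m * LL m (tf (n := n) b ε K) x)) := by
      have h2 : Continuous (fun x => (-1) ^ m * LL m (tf (n := n) b ε K) x) :=
        continuous_const.mul (LL_smooth (tf_smooth b hε hK0) m).continuous
      have h3 : HasCompactSupport (fun x => (-1) ^ m * LL m (tf (n := n) b ε K) x) :=
        (LL_supp (tf_supp b hε hK0) m).mul_left
      refine (hu.integrable_smul_left_of_hasCompactSupport h2 h3).congr (Eventually.of_forall fun x => ?_)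
      simp only [smul_eq_mul]
      ring
    have hI2 : Integrable (fun x : EuclideanSpace ℝ (Fin n) => (‖x‖ ^ σ * u x ^ p * tf b ε K x) / p +
        (M * ε) ^ q * fW n (1 / ε) ‖x‖) :=
      ((hXint ε hε).div_const p).add ((W_int hn (1 / ε)).const_mul _)
    have h2 : ∫ x, u x * ((-1) ^ m * LL m (tf b ε K) x) ≤ ∫ x : EuclideanSpace ℝ (Fin n),
        ((‖x‖ ^ σ * u x ^ p * tf b ε K x) / p + (M * ε) ^ q * fW n (1 / ε) ‖x‖) := by
      apply integral_mono_ae hI1 hI2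
      filter_upwards [hne0, hu0] with x hx hux
      exact hpt ε hε hε1 x hx hux
    rw [h1, integral_add ((hXint ε hε).div_const p) ((W_int hn (1 / ε)).const_mul _), integral_div,
      integral_const_mul, W_val hn (by positivity)] at h2
    set I := ∫ x, ‖x‖ ^ σ * u x ^ p * tf b ε K x with hI
    have hpp : 0 < 1 - 1 / p := by
      rw [sub_pos, div_lt_one hp0]
      exact hp
    have h3 : (1 - 1 / p) * I ≤ M ^ q * (n * volume.real (Metric.ball (0 : EuclideanSpace ℝ (Fin n)) 1) * 2) *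
        ε ^ (q - 1) := by
      have e : (M * ε) ^ q = M ^ q * (ε ^ (q - 1) * ε) := by
        rw [mul_rpow hM0 hε.le, rpow_sub_one hε.ne', div_mul_cancel₀ _ hε.ne']
      rw [e] at h2
      have e2 : M ^ q * (ε ^ (q - 1) * ε) *
          (n * volume.real (Metric.ball (0 : EuclideanSpace ℝ (Fin n)) 1) * (2 * (1 / ε))) =
          M ^ q * (n * volume.real (Metric.ball (0 : EuclideanSpace ℝ (Fin n)) 1) * 2) * ε ^ (q - 1) := by
        field_simp
      rw [e2] at h2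
      have : (1 - 1 / p) * I = I - I / p := by ring
      linarith
    rw [hC, div_mul_eq_mul_div, le_div_iff₀ hpp]
    linarith
  have hzero : ∀ ε : ℝ, 0 < ε → ε ≤ 1 → ∀ᵐ x, ‖x‖ ^ σ * u x ^ p * tf b ε K x = 0 := by
    intro ε₀ hε₀ hε₀1
    have hnn : ∀ᵐ x, 0 ≤ ‖x‖ ^ σ * u x ^ p * tf b ε₀ K x := by
      filter_upwards [hu0] with x hux
      have := tf_nonneg b ε₀ K x
      positivity
    have hle : ∫ x, ‖x‖ ^ σ * u x ^ p * tf b ε₀ K x ≤ 0 := by
      have hlim : Tendsto (fun ε : ℝ => C * ε ^ (q - 1)) (𝓝[>] 0) (𝓝 0) := by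
        have h1 : Tendsto (fun ε : ℝ => ε ^ (q - 1)) (𝓝[>] 0) (𝓝 ((0:ℝ) ^ (q - 1))) :=
          (continuousAt_rpow_const 0 (q - 1) (Or.inr (by linarith))).tendsto.mono_left nhdsWithin_le_nhds
        rw [zero_rpow (by linarith)] at h1
        simpa using h1.const_mul C
      refine ge_of_tendsto hlim ?_
      have hmem : Ioo (0:ℝ) (ε₀ / 2) ∈ 𝓝[>] (0:ℝ) := Ioo_mem_nhdsGT (by linarith)
      filter_upwards [hmem] with ε hε
      refine le_trans ?_ (hest ε hε.1 (by linarith [hε.2]))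
      apply integral_mono_ae (hXint ε₀ hε₀) (hXint ε hε.1)
      filter_upwards [hu0, hne0] with x hux hx
      have h1 : tf b ε₀ K x ≤ tf b ε K x := by
        rw [tf_eq b ε₀ K hx, tf_eq b ε K hx]
        have hs : 0 ≤ (‖x‖ ^ 2) ^ b := by positivity
        apply mul_le_mul_of_nonneg_left _ hs
        rcases le_or_gt 2 |ε₀ * log (‖x‖ ^ 2)| with h2 | h2
        · rw [χ_zero h2, zero_pow hK0]
          have := χ_nonneg (ε * log (‖x‖ ^ 2))
          positivity
        · have h3 : |ε * log (‖x‖ ^ 2)| ≤ 1 := by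
            rw [abs_mul, abs_of_pos hε₀] at h2
            rw [abs_mul, abs_of_pos hε.1]
            have := abs_nonneg (log (‖x‖ ^ 2))
            nlinarith [hε.2]
          rw [χ_one h3, one_pow]
          exact pow_le_one₀ (χ_nonneg _) (χ_le_one _)
      have h2 : 0 ≤ ‖x‖ ^ σ * u x ^ p := by positivity
      exact mul_le_mul_of_nonneg_left h1 h2
    have h0 : ∫ x, ‖x‖ ^ σ * u x ^ p * tf b ε₀ K x = 0 := le_antisymm hle (integral_nonneg_of_ae hnn)
    have := (integral_eq_zero_iff_of_nonneg_ae hnn (hXint ε₀ hε₀)).mp h0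
    filter_upwards [this] with x hx
    exact hx
  have hall : ∀ᵐ x, ∀ k : ℕ, ‖x‖ ^ σ * u x ^ p * tf b (1 / ((k:ℝ) + 1)) K x = 0 := by
    rw [ae_all_iff]
    intro k
    exact hzero _ (by positivity) (by rw [div_le_one (by positivity)]; linarith [Nat.cast_nonneg (α := ℝ) k])
  filter_upwards [hall, hne0, hu0] with x hx hx0 hux
  obtain ⟨k, hk⟩ := exists_nat_ge |log (‖x‖ ^ 2)|
  have h1 := hx k
  have hn0 : 0 < ‖x‖ := by positivity
  rw [tf_eq b _ K hx0, χ_one, one_pow, mul_one] at h1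
  · have h2 : 0 < ‖x‖ ^ σ := by positivity
    have h3 : 0 < (‖x‖ ^ 2) ^ b := by positivity
    have h4 : u x ^ p = 0 := by
      rcases mul_eq_zero.mp h1 with h | h
      · rcases mul_eq_zero.mp h with h | h
        · exact absurd h h2.ne'
        · exact h
      · exact absurd h h3.ne'
    exact (rpow_eq_zero hux hp0.ne').mp h4
  · rw [abs_mul, abs_of_pos (by positivity), one_div, inv_mul_le_iff₀ (by positivity)]
    linarith

end Pool.Agent.Q175.HH
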