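import Pool.Agent.Q175.PH.Lap

/-! Iterated Laplacians of `|x|^{2b} χ(ε log |x|²)^K`. -/

set_option autoImplicit false

open MeasureTheory InnerProductSpace Filter Topology Set Laplacian
open scoped ContDiff

namespace Pool.Agent.Q175.HH

open Pool.Agent.Q175.PH (LL LL_succ LL_congr LL_smooth LL_supp)

/-- derivative in the second variable -/
noncomputable def dy (g : ℝ × ℝ → ℝ) (p : ℝ × ℝ) : ℝ := fderiv ℝ g p (0, 1)

lemma dy_smooth {g : ℝ × ℝ → ℝ} (hg : ContDiff ℝ ∞ g) : ContDiff ℝ ∞ (dy g) :=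
  (hg.fderiv_right (m := ∞) (by simp)).clm_apply contDiff_const

lemma hasDerivAt_dy {g : ℝ × ℝ → ℝ} (hg : ContDiff ℝ ∞ g) (ε y : ℝ) :
    HasDerivAt (fun y => g (ε, y)) (dy g (ε, y)) y := by
  have h1 : HasFDerivAt g (fderiv ℝ g (ε, y)) (ε, y) :=
    (hg.differentiable (by simp) _).hasFDerivAt
  have h2 : HasDerivAt (fun y : ℝ => ((ε, y) : ℝ × ℝ)) ((0:ℝ), (1:ℝ)) y :=
    (hasDerivAt_const y ε).prodMk (hasDerivAt_id y)
  exact h1.comp_hasDerivAt y h2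

noncomputable def A (c : ℝ) (g : ℝ × ℝ → ℝ) (p : ℝ × ℝ) : ℝ := c * g p + p.1 * dy g p

lemma A_smooth (c : ℝ) {g : ℝ × ℝ → ℝ} (hg : ContDiff ℝ ∞ g) : ContDiff ℝ ∞ (A c g) :=
  (contDiff_const.mul hg).add (contDiff_fst.mul (dy_smooth hg))

lemma der (c : ℝ) {g : ℝ × ℝ → ℝ} (hg : ContDiff ℝ ∞ g) (ε : ℝ) {s : ℝ} (hs : 0 < s) :
    HasDerivAt (fun s => s ^ c * g (ε, ε * Real.log s)) (s ^ (c - 1) * A c g (ε, ε * Real.log s)) s := by
  have h1 := (Real.hasDerivAt_rpow_const (p := c) (Or.inl hs.ne')).mul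
    ((hasDerivAt_dy hg ε (ε * Real.log s)).comp s ((Real.hasDerivAt_log hs.ne').const_mul ε))
  refine h1.congr_deriv ?_
  have h2 : s ^ c = s ^ (c - 1) * s := by
    rw [Real.rpow_sub_one hs.ne', div_mul_cancel₀ _ hs.ne']
  simp only [Function.comp_def, A]
  rw [h2]
  field_simp

noncomputable def st (n : ℕ) (c : ℝ) (g : ℝ × ℝ → ℝ) (p : ℝ × ℝ) : ℝ :=
  4 * A (c - 1) (A c g) p + 2 * n * A c g p

lemma st_smooth (n : ℕ) (c : ℝ) {g : ℝ × ℝ → ℝ} (hg : ContDiff ℝ ∞ g) : ContDiff ℝ ∞ (st n c g) :=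
  (contDiff_const.mul (A_smooth _ (A_smooth _ hg))).add (contDiff_const.mul (A_smooth _ hg))

lemma lap_form {n : ℕ} (c : ℝ) {g : ℝ × ℝ → ℝ} (hg : ContDiff ℝ ∞ g) (ε : ℝ)
    {x : EuclideanSpace ℝ (Fin n)} (hx : x ≠ 0) :
    Δ (fun x : EuclideanSpace ℝ (Fin n) => (‖x‖ ^ 2) ^ c * g (ε, ε * Real.log (‖x‖ ^ 2))) x =
      (‖x‖ ^ 2) ^ (c - 1) * st n c g (ε, ε * Real.log (‖x‖ ^ 2)) := by
  have hs : 0 < ‖x‖ ^ 2 := by positivity
  have h := H314.CS.LL.laplacian_comp_normSq (E := EuclideanSpace ℝ (Fin n)) (x := x)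
    (U := fun s => s ^ c * g (ε, ε * Real.log s))
    (U' := fun s => s ^ (c - 1) * A c g (ε, ε * Real.log s))
    (U'' := fun s => s ^ (c - 1 - 1) * A (c - 1) (A c g) (ε, ε * Real.log s))
    (by
      filter_upwards [Ioi_mem_nhds hs] with s hs'
      exact der c hg ε hs')
    (der (c - 1) (A_smooth c hg) ε hs)
  rw [h, finrank_euclideanSpace_fin]
  have h2 : (‖x‖ ^ 2) ^ (c - 1) = (‖x‖ ^ 2) ^ (c - 1 - 1) * ‖x‖ ^ 2 := by
    rw [Real.rpow_sub_one hs.ne' (c - 1), div_mul_cancel₀ _ hs.ne']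
  unfold st
  rw [h2]
  ring

/-- the iterates -/
noncomputable def gg (n : ℕ) (b : ℝ) (g : ℝ × ℝ → ℝ) : ℕ → ℝ × ℝ → ℝ
  | 0 => g
  | j + 1 => st n (b - j) (gg n b g j)

lemma gg_smooth (n : ℕ) (b : ℝ) {g : ℝ × ℝ → ℝ} (hg : ContDiff ℝ ∞ g) (j : ℕ) :
    ContDiff ℝ ∞ (gg n b g j) := by
  induction j with
  | zero => exact hg
  | succ j ih => exact st_smooth n _ ih

lemma LL_form {n : ℕ} (b : ℝ) {g : ℝ × ℝ → ℝ} (hg : ContDiff ℝ ∞ g) (ε : ℝ)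
    {φ : EuclideanSpace ℝ (Fin n) → ℝ}
    (hφ : ∀ x, x ≠ 0 → φ x = (‖x‖ ^ 2) ^ b * g (ε, ε * Real.log (‖x‖ ^ 2))) (j : ℕ) :
    ∀ x, x ≠ 0 → LL j φ x = (‖x‖ ^ 2) ^ (b - j) * gg n b g j (ε, ε * Real.log (‖x‖ ^ 2)) := by
  induction j with
  | zero => intro x hx; simpa [LL, gg] using hφ x hx
  | succ j ih =>
    intro x hx
    have h1 : LL j φ =ᶠ[𝓝 x] fun x : EuclideanSpace ℝ (Fin n) =>
        (‖x‖ ^ 2) ^ (b - j) * gg n b g j (ε, ε * Real.log (‖x‖ ^ 2)) := by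
      filter_upwards [isOpen_ne.mem_nhds hx] with y hy
      exact ih y hy
    rw [LL_succ, (laplacian_congr_nhds h1).self_of_nhds, lap_form (b - j) (gg_smooth n b hg j) ε hx]
    push_cast
    rw [show b - (j:ℝ) - 1 = b - (j + 1) by ring]
    rfl

section str
variable {χ : ℝ → ℝ} (hχ : ContDiff ℝ ∞ χ)
include hχ

lemma A_str (c P : ℝ) (K l i : ℕ) (hK : K = l + 1 + i) {r g : ℝ × ℝ → ℝ} (hr : ContDiff ℝ ∞ r)
    (hg : g = fun p => P * χ p.2 ^ K + p.1 * χ p.2 ^ (l + 1) * r p) :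
    ∃ r' : ℝ × ℝ → ℝ, ContDiff ℝ ∞ r' ∧
      A c g = fun p => (c * P) * χ p.2 ^ K + p.1 * χ p.2 ^ l * r' p := by
  have hχ1 : ContDiff ℝ ∞ (deriv χ) := by
    have := (contDiff_infty_iff_deriv.mp hχ).2
    exact this
  have hc2 : ContDiff ℝ ∞ (fun p : ℝ × ℝ => χ p.2) := hχ.comp contDiff_snd
  have hgs : ContDiff ℝ ∞ g := by
    rw [hg]
    exact (contDiff_const.mul (hc2.pow K)).add ((contDiff_fst.mul (hc2.pow (l + 1))).mul hr)
  refine ⟨fun p => c * χ p.2 * r p + P * K * χ p.2 ^ i * deriv χ p.2 +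
    p.1 * ((l + 1) * deriv χ p.2 * r p + χ p.2 * dy r p), ?_, ?_⟩
  · have hc3 : ContDiff ℝ ∞ (fun p : ℝ × ℝ => deriv χ p.2) := hχ1.comp contDiff_snd
    exact (((contDiff_const.mul hc2).mul hr).add ((contDiff_const.mul (hc2.pow i)).mul hc3)).add
      (contDiff_fst.mul (((contDiff_const.mul hc3).mul hr).add (hc2.mul (dy_smooth hr))))
  · funext p
    obtain ⟨ε, y⟩ := p
    have hd : HasDerivAt χ (deriv χ y) y := (hχ.differentiable (by simp) y).hasDerivAt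
    have h1 : HasDerivAt (fun y => P * χ y ^ K + ε * χ y ^ (l + 1) * r (ε, y))
        (P * (K * χ y ^ (K - 1) * deriv χ y) + (ε * (((l + 1 : ℕ) : ℝ) * χ y ^ l * deriv χ y) * r (ε, y) +
          ε * χ y ^ (l + 1) * dy r (ε, y))) y :=
      ((hd.pow K).const_mul P).add (((hd.pow (l + 1)).const_mul ε).mul (hasDerivAt_dy hr ε y))
    have h2 : HasDerivAt (fun y => g (ε, y)) (dy g (ε, y)) y := hasDerivAt_dy hgs ε y
    have h3 : (fun y => g (ε, y)) = fun y => P * χ y ^ K + ε * χ y ^ (l + 1) * r (ε, y) := by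
      rw [hg]
    rw [h3] at h2
    have h4 := h2.unique h1
    unfold A
    rw [h4, hg]
    have h5 : K - 1 = l + i := by omega
    simp only [h5]
    push_cast
    rw [hK]
    push_cast
    ring

lemma st_str (n : ℕ) (c P : ℝ) (K l i : ℕ) (hK : K = l + 2 + i) {r g : ℝ × ℝ → ℝ} (hr : ContDiff ℝ ∞ r)
    (hg : g = fun p => P * χ p.2 ^ K + p.1 * χ p.2 ^ (l + 2) * r p) :
    ∃ r' : ℝ × ℝ → ℝ, ContDiff ℝ ∞ r' ∧
      st n c g = fun p => (P * (4 * c * (c - 1 + n / 2))) * χ p.2 ^ K + p.1 * χ p.2 ^ l * r' p := by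
  obtain ⟨r1, hr1, h1⟩ := A_str hχ c P K (l + 1) i (by omega) hr hg
  obtain ⟨r2, hr2, h2⟩ := A_str hχ (c - 1) (c * P) K l (i + 1) (by omega) hr1 h1
  have hc2 : ContDiff ℝ ∞ (fun p : ℝ × ℝ => χ p.2) := hχ.comp contDiff_snd
  refine ⟨fun p => 4 * r2 p + 2 * n * (χ p.2 * r1 p),
    (contDiff_const.mul hr2).add (contDiff_const.mul (hc2.mul hr1)), ?_⟩
  funext p
  unfold st
  rw [h2, h1]
  simp only
  ring

lemma gg_str (n : ℕ) (b : ℝ) (K : ℕ) (j : ℕ) : ∀ l : ℕ, K = l + 2 * j →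
    ∃ r : ℝ × ℝ → ℝ, ContDiff ℝ ∞ r ∧ gg n b (fun p => χ p.2 ^ K) j = fun p =>
      (∏ i ∈ Finset.range j, (4 * (b - i) * (b - i - 1 + n / 2))) * χ p.2 ^ K + p.1 * χ p.2 ^ l * r p := by
  induction j with
  | zero =>
    intro l _
    refine ⟨fun _ => 0, contDiff_const, ?_⟩
    funext p
    simp [gg]
  | succ j ih =>
    intro l hK
    obtain ⟨r, hr, h⟩ := ih (l + 2) (by omega)
    obtain ⟨r', hr', h'⟩ := st_str hχ n (b - j) _ K l (2 * j) (by omega) hr h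
    refine ⟨r', hr', ?_⟩
    rw [Finset.prod_range_succ]
    exact h'

end str

end Pool.Agent.Q175.HH
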